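import Mathlib
import Pool.Agent.KS6_5.OG.Good
import Pool.Agent.KS6_5.OG.Elliptic
import Pool.Graph.R_pool_sql_team_seeded_2aa45f1a.Q306.FG.GPThms

/-!
# The Tate conjecture for function fields over finite fields, for the products of varieties with
ordinary elliptic curves and abelian varieties over different real fields

Let `q = p ^ a`, and let `P k` (`k` in an arbitrary set, possibly infinite) be polynomials with
integral coefficients with the following properties (`IsOnePlaceFamily`), for instance
characteristic polynomials of Frobenius of abelian varieties over the field with `q` elements:

* their roots `z` have the absolute value `√q` and the slopes `1 / 2 + δ k` and `1 / 2 - δ k` only,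
  with `δ k > 0`; ordinary abelian varieties have `δ k = 1 / 2`;
* for some `m > 0` the number `z ^ m + (q / z) ^ m` is contained in a Galois extension of `ℚ` with
  one place above `p` and with cyclic Sylow `2`-subgroups of the Galois group: for example in a
  cyclic field in which `p` is inert or totally ramified. **This field may be different for
  different roots `z` and different `k`**, and nothing is assumed on its degree;
* for `δ k ≠ δ l` no power of `z ^ 2 / q` is a power of `z' ^ 2 / q`, for the roots `z` of `P k` and `z'`
  of `P l` (no condition if all `δ k` are equal, for instance in the ordinary case);
* `z z' / q` is not a root of unity different from one, for all roots `z`, `z'` of the `P k` (this is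
  true after a finite extension of the base field).

**The second part of the theorem: `P k = X ^ 2 - b k X + q` is such a family if `p` does not divide
`b k` and the imaginary quadratic fields `ℚ(√(b k ^ 2 - 4 q))` are different from each other.** So up
to isogeny and finite extensions of the base field `A` can be any product of any number of ordinary
elliptic curves. Other examples are ordinary abelian surfaces with real multiplication by quadratic
fields in which `p` does not split, ordinary abelian varieties such that the centre of the
endomorphism algebra over an algebraic closure is a quadratic extension of a cyclic field in which
`p` is inert, and all products of such abelian varieties and elliptic curves.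

Let `A` be an abelian variety over the field with `Q = q ^ s` elements which is isogenous to a
product of powers of abelian varieties coming from the field with `q` elements, with characteristic
polynomials `P k` (for `s = 1`: any product of powers of the abelian varieties), and let `Z` be **any** smooth variety over the field with `Q` elements, proper or
not, such that

* the eigenvalues `ρ` of Frobenius on the `ℓ`-adic cohomology of `Z` satisfy the
  following condition (`NarrowUnrelated`), where `w ≥ 0` is **any** real number:

  `SlopesInInterval`: the slopes of `ρ` with respect to `q` lie in an interval of length `w` (which
  depends on `ρ`); and

  `NoShortRelation`: there is no relation `(z 1 ⋯ z n) ^ m * ρ ^ N = q ^ c`, `m, N > 0`, with `n > 0`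
  roots `z i` of polynomials `P (k i)` no two of which have the product `q`, and with
  `∑ (2 δ (k i)) ^ 2 ≤ w ^ 2`. If `A` is ordinary the last condition is `n ≤ w ^ 2`.

  If `w < 2 δ k` for all `k` there are no such products and `NoShortRelation` is no condition (third
  part of the theorem): if `A` is a product of ordinary elliptic curves all `Z` are allowed such
  that the slopes of each eigenvalue and its conjugates lie in an interval of length less than one,
  without any condition on fields. If `A` is ordinary and `w = 1`, as for curves, `K3` surfaces of
  height two and so on, only `n = 1` remains: no eigenvalue of Frobenius of `Z` is an eigenvalue of
  Frobenius of `A`, up to roots of unity and powers of `q` (for a curve: no factor of `A` is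
  isogenous to a factor of the Jacobian, over an algebraic closure). **In general, although `A` can
  have any number of factors, only products of at most `w ^ 2` of the numbers `z i` have to be
  compared with the eigenvalues of `Z`**; and `w` is at most the dimension of `Z`.

**For all `i`, `j`, the Frobenius invariant classes in the cohomology group `H^i(F₀ (A × Z),
ℚ_ℓ(j))` of the generic point of `A × Z` which extend to `A × Z` are the inverse images of unique
Frobenius invariant classes in `H^i(F₀ Z, ℚ_ℓ(j))` which extend to `Z`; and all of the former come
from the higher Chow group `CH^j(Spec K(A × Z), 2 j - i)` (`K` an algebraic closure of the finite
field) if and only if all of the latter come from `CH^j(Spec K(Z), 2 j - i)`** (`GenericReduces`).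
If `Z` is an open subset of a variety `Z'`, the condition is that the classes are unramified
outside of `A × (Z' - Z)`. So for these classes question Q1 for the function field of `A × Z` is
question Q1 for the function field of `Z`, in every bidegree. **If all invariant classes of
bidegree `(i, j)` extend, then question Q1 for `A × Z` and `(i, j)` is equivalent to question Q1
for `Z` and `(i, j)`.** By the theory of weights this is so for `i = 2 j` if `Z` is projective:
the part of `H^(2 j)(F₀ X, ℚ_ℓ(j))` of weight zero is the image of `H^(2 j)(X, ℚ_ℓ(j))` for smooth
projective `X`, and question Q1 says that there are no nonzero invariant classes in it (`j > 0`).
No case of the conjectures of Tate, Beilinson and Parshin is assumed.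

What is used of `A` are known theorems (`IsAbelian`): `H(A)` is generated by `H^1`, Frobenius is
diagonalizable on `H^1` (Weil), the theorem of Tate on divisors, and the nilpotence of
homologically trivial correspondences (Kimura). The groups `H^i(X, ℚ_ℓ(j))` over an algebraic
closure, for `X = Z` and `X = A × Z`, are the groups of bidegree `(i, j)` of a theory which is
modelled by `RelData`, with the formal properties in `IsTheory`: degrees, products with classes on
`A`, push-forward to `Z`, the projection formula, the operation of the correspondences of `A` and
of the Frobenius endomorphism of `Z` (without the Tate twist, so that the Frobenius invariants are
the elements which are multiplied by `Q ^ j`). The cohomology of the generic points is modelled by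
`GenericData` and `IsGeneric`: the restrictions and inverse images commute with Frobenius; the
product of a class on `Z` with a class of positive codimension on `A` vanishes at the generic
point of `A × Z`, as it has a smaller support; the inverse image from the generic point of `Z` to
the one of `A × Z` is injective, and a class comes from a higher Chow group if its inverse image
does (specialization at a closed point of `A`); and the eigenvalues of Frobenius are algebraic
numbers (Deligne).

Relation to other results. In the starting files (`AllCMTypesTimes`, `NewtonStrata`,
`SmallSlopeDeviation` and others on this problem) the factors of `A` are almost all CM types, almost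
all abelian varieties, or have absolutely irreducible and mutually unrelated fields, and `Z` is
unrelated to them. In `OnePlaceTimes` (helper74, this problem; arithmetic by helper5) all real
multiplications are contained in **one** field `F` with one place above `p` in question (so `F = ℚ`
for elliptic curves), and each eigenvalue of `Z` does not generate the fields over `F`, or has slopes
in an interval of length less than one (`A` ordinary). Here the real fields are different, and in
general no field containing two of them has only one place above `p`: there is no group of
automorphisms which acts on all numbers by signs. For example `A` can be any product of ordinary
elliptic curves and of ordinary abelian surfaces with real multiplications by different quadratic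
fields in which `p` is inert. The condition on `Z` is also different: the slopes are arbitrary, and
`NoShortRelation` is not only sufficient but also necessary for the absence of relations, as all
relations are short.

The proof. (1) The logarithms of the absolute values of the conjugates of `x = z ^ 2 / q` define a
function `F₁` with values `± 1` on the Galois group `G` of the algebraic numbers. If the field `F` of
`x` has one place above `p` then `G = D H₁`, where `F₁` is invariant on the left by the decomposition
group `D`, and multiplied by a sign under the right translations by the elements of the normal
subgroup `H₁` of the automorphisms over `F`. Let `F₂`, `H₂` belong to another number `y`. Then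
`B(h', h) = P(h' h) P(h') P(h) P(1)`, with `P = F₁ F₂`, is given by the commutator of `H₁` and `H₂`. It
is a bilinear form on `H₁ / (H₁ ∩ H₂)` with `B(h, h) = 1`, unless `P` changes its sign under a right
translation by a square; so it is trivial if the Sylow `2`-subgroups are cyclic. Hence `P` is
constant or changes its sign under some right translation: the functions of slopes of `x` and `y`
are proportional or orthogonal to each other. If they are proportional, the numbers are equal or
inverse to each other up to roots of unity. (2) Suppose that the product of `ρ` and of `n` roots
`z i`, no two of them with product `q`, is a power of `q`, up to a root of unity. Then the mean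
square of the sum of the functions of slopes of the `z i ^ 2 / q` is at least `∑ (2 δ (k i)) ^ 2`, and
at most `w ^ 2`, as this sum is also, up to a constant, twice the function of slopes of `ρ`. So the
relation is short, and excluded. (3) The
deduction of the theorem from the statement on relations is the one of the starting files
(`AllCMTypesTimes`): the generalized eigenspace of Frobenius for the eigenvalue `Q ^ j` in
`H^i(A × Z, ℚ_ℓ(j))` is the sum of the products of finitely many products `D t` of divisors on `A`
with the cohomology of `Z`. An invariant class at the generic point which extends to `A × Z` is the
restriction of an element of this generalized eigenspace. All the terms but the one with `D t = 1`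
vanish at the generic point, and so the class is the inverse image of a class of `Z`, which is
invariant, since the inverse image is injective.
-/

set_option autoImplicit false

namespace Pool.Agent.Results.MP_677d84_ag.DifferentFieldsTimes

open Polynomial Pool.Agent.KS6_5.OC Pool.Agent.KS6_5.OG Pool.Agent.Y1.CT
  Pool.Agent.Q64.L Pool.Agent.Q306.FG

/-- **Question Q1 for the function field of `A × Z` and the classes which extend to `A × Z` is
question Q1 for the function field of `Z` and the classes which extend to `Z`**, for the abelian varieties `A` with two slopes
`1 / 2 ± δ k` whose real fields, which may be different, have one place above `p`, for instance for all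
products of ordinary elliptic curves, and all `Z` whose
Frobenius eigenvalues have slopes in an interval of length `w` and no relations with products of
few eigenvalues of Frobenius of `A` (none at all are to be considered for `w < 2 δ k`). -/
theorem result :
    (∀ (p : ℕ) [Fact p.Prime] (a : ℕ), 0 < a → ∀ (κ : Type) (δ : κ → ℝ) (P : κ → ℤ[X]),
      IsOnePlaceFamily p a δ P → ∀ w : ℝ, 0 ≤ w →
      GenericReduces (NarrowUnrelated p a w δ P) (p ^ a) P) ∧
    (∀ (p : ℕ) [Fact p.Prime] (a : ℕ), 0 < a → ∀ (κ : Type) (b : κ → ℤ),
      (∀ k, ¬ (p : ℤ) ∣ b k) → (∀ k, b k ^ 2 < 4 * (p ^ a : ℕ)) →
      (∀ k l, b k = b l ∨ ¬ IsSquare ((b k ^ 2 - 4 * (p ^ a : ℕ)) * (b l ^ 2 - 4 * (p ^ a : ℕ)))) →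
      IsOnePlaceFamily p a (fun _ : κ => 1 / 2)
        (fun k => X ^ 2 - C (b k) * X + C (((p ^ a : ℕ) : ℤ)))) ∧
    (∀ (q : ℕ) (κ : Type) (δ : κ → ℝ) (P : κ → ℤ[X]) (w : ℝ), 0 ≤ w → (∀ k, w < 2 * δ k) →
      ∀ ρ : AlgebraicClosure ℚ, NoShortRelation q w δ P ρ) := by
  refine ⟨?_, ?_, ?_⟩
  · intro p _ a ha κ δ P H w hw
    have hq : 1 < p ^ a := Nat.one_lt_pow ha.ne' (Fact.out : p.Prime).one_lt
    exact genericReduces hq (good_family ha H hw)
  · intro p _ a ha κ b hb hd h
    exact ell_family ha b hb hd h
  · intro q κ δ P w hw h ρ
    exact noShortRelation_of_lt hw h ρ

end Pool.Agent.Results.MP_677d84_ag.DifferentFieldsTimes
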