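import Mathlib
import Pool.Agent.KS6_74.OP.Good
import Pool.Agent.KS6_5.SP.Place
import Pool.Graph.R_pool_sql_team_seeded_2aa45f1a.Q306.FG.GPThms

/-!
# The Tate conjecture for function fields over finite fields, for the products of varieties with
abelian varieties whose Frobenius numbers are supported at one place

Let `F` be a number field, `q = p ^ a`, and let `π i` (`i` in a finite set) be Weil numbers for `q`
of weight one in CM fields `E i`, all of whose powers generate `E i` (`IsWeilOne`), such that

* `F` contains all conjugates of the maximal totally real subfields of the `E i` (`ContainsReal`);
* each conjugate of `α i = π i ^ 2 / q` (`angle`) is a unit at all places above `p` except for those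
  above **one** place of `F` (`AtOnePlace`). This is true for all numbers if `F` has only one place
  above `p`, for example if `p` is inert or totally ramified in `F` (second part of the theorem). It
  is also true, for all `p`, if `α i` is a unit except at the two places above one place of degree
  one of a Galois real field;
* no power of a conjugate of `α i` is equal to a power of a conjugate of `α j`, for `i ≠ j`
  (`Incommensurable`). (Otherwise one omits one of the `π i`, up to isogeny and base change.)

Nothing is assumed about the Galois groups, the fields may be equal to each other, and all slopes
occur; the slopes may be equal to `1 / 2` at some, but not all, places. Let `f i` be monic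
polynomials whose complex roots are conjugates of `π i` (`IsPolyOf`), for instance the
characteristic polynomials of Frobenius of the abelian varieties in the isogeny classes of the
`π i` over the field with `q` elements. Let `A` be an abelian variety over the field with
`Q = q ^ s` elements which is isogenous to a product of powers of abelian varieties coming from the
field with `q` elements, with characteristic polynomials `f i` (for `s = 1`: any product of powers of
simple abelian varieties with Weil numbers `π i`), and let `Z` be **any** smooth variety over the field with `Q` elements, proper or
not, such that

* the eigenvalues `ρ` of Frobenius on the `ℓ`-adic cohomology of `Z` satisfy for all `i` one of the two conditions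
  (`ForeignOrSmallRoots`):

  `NotOver`: for some `m > 0` the field `F(ρ ^ m)` contains no conjugate of `E i`; **or**

  `SmallerSlopes`: there is a number `c` with `|log |ρ| - c| < |log |α|| / 2` for all `p`-adic
  absolute values of the conjugates of `ρ` and all absolute values `≠ 1` of the conjugates `α` of
  `α i`. For `s = 1` this means `|v - c'| < |v' - 1 / 2|` for all slopes `v` of the conjugates of `ρ`
  and all slopes `v' ≠ 1 / 2` of `π i`: if `A` is ordinary, then the slopes of `ρ` lie in an interval
  of length less than one. So all `ρ` are allowed which are powers of `q`, up to roots of unity, and
  those of `K3` surfaces of height at least three, of abelian varieties with slopes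
  different from `0` and `1`, and so on. There is no condition on the fields `ℚ(ρ)`.

**For all `i`, `j`, the Frobenius invariant classes in the cohomology group `H^i(F₀ (A × Z),
ℚ_ℓ(j))` of the generic point of `A × Z` which extend to `A × Z` are the inverse images of unique
Frobenius invariant classes in `H^i(F₀ Z, ℚ_ℓ(j))` which extend to `Z`; and all of the former come
from the higher Chow group `CH^j(Spec K(A × Z), 2 j - i)` (`K` an algebraic closure of the finite
field) if and only if all of the latter come from `CH^j(Spec K(Z), 2 j - i)`** (`GenericReduces`).
If `Z` is an open subset of a variety `Z'`, the condition is that the classes are unramified
outside of `A × (Z' - Z)`. So for these classes question Q1 for the function field of `A × Z` is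
question Q1 for the function field of `Z`, in every bidegree. **If all invariant classes of
bidegree `(i, j)` extend, then question Q1 for `A × Z` and `(i, j)` is equivalent to question Q1
for `Z` and `(i, j)`.** By the theory of weights this is so for `i = 2 j` if `Z` is projective:
the part of `H^(2 j)(F₀ X, ℚ_ℓ(j))` of weight zero is the image of `H^(2 j)(X, ℚ_ℓ(j))` for smooth
projective `X`, and question Q1 says that there are no nonzero invariant classes in it (`j > 0`).
No case of the conjectures of Tate, Beilinson and Parshin is assumed.

What is used of `A` are known theorems (`IsAbelian`): `H(A)` is generated by `H^1`, Frobenius is
diagonalizable on `H^1` (Weil), the theorem of Tate on divisors, and the nilpotence of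
homologically trivial correspondences (Kimura). The groups `H^i(X, ℚ_ℓ(j))` over an algebraic
closure, for `X = Z` and `X = A × Z`, are the groups of bidegree `(i, j)` of a theory which is
modelled by `RelData`, with the formal properties in `IsTheory`: degrees, products with classes on
`A`, push-forward to `Z`, the projection formula, the operation of the correspondences of `A` and
of the Frobenius endomorphism of `Z` (without the Tate twist, so that the Frobenius invariants are
the elements which are multiplied by `Q ^ j`). The cohomology of the generic points is modelled by
`GenericData` and `IsGeneric`: the restrictions and inverse images commute with Frobenius; the
product of a class on `Z` with a class of positive codimension on `A` vanishes at the generic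
point of `A × Z`, as it has a smaller support; the inverse image from the generic point of `Z` to
the one of `A × Z` is injective, and a class comes from a higher Chow group if its inverse image
does (specialization at a closed point of `A`); and the eigenvalues of Frobenius are algebraic
numbers (Deligne).

Relation to other results (starting files). `AllCMTypesTimes`, `NewtonStrata` and
`PrimeDimensions` (this problem) are about almost all CM types, generic fields, and other factors
`Z` whose eigenvalues are unrelated to the fields `E i`. The class of `A` here is different:
explicit, for each single abelian variety, without conditions on the Galois groups and on the
multiplicities of the slopes; and so is the class of `Z`, whose fields may be the same.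

The proof. Suppose that the product of `ρ` and of some conjugates of the `π i`, no two of them
complex conjugate, is a power of `q`, up to a root of unity. Let `S` be the group of the
automorphisms which fix all elements of `F`. It acts on the conjugates of `E i` through signs:
`h σ = σ` or `h σ` is the complex conjugate of `σ`. We fix one of the conjugates in the relation,
`x = σ (α i)`, and a place where it is not a unit, and take the average of the logarithms of the
relation at this place and its images under `S`, with the sign character of `x`. Only the conjugates
`y = τ (α j)` with the same sign character remain. If `y` is not a unit at the given place either,
then both `x` and `y` are units except above the same place of `F`; as `S` permutes the places above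
it transitively and acts through the same signs, `log |y|` is proportional to `log |x|` at all
places. The factor is rational, so that a power of `y` is a power of `x` or of its conjugate; this
is excluded for `j ≠ i`, and for `j = i` the factor is `± 1` and `τ` is `σ` or its conjugate, because
the powers generate `E i`. So only the difference of the exponents of `x` and its conjugate
remains. It vanishes because the contribution of `ρ` is averaged out (`NotOver`) or is too small
(`SmallerSlopes`). This part is due to helper5 of this team (`OnePlaceOfRealField`,
MP_2a05c8_ag), where it is applied to the Tate conjecture. The
deduction of the theorem from the statement on relations is the one of the starting files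
(`AllCMTypesTimes`): the generalized eigenspace of Frobenius for the eigenvalue `Q ^ j` in
`H^i(A × Z, ℚ_ℓ(j))` is the sum of the products of finitely many products `D t` of divisors on `A`
with the cohomology of `Z`. An invariant class at the generic point which extends to `A × Z` is the
restriction of an element of this generalized eigenspace. All the terms but the one with `D t = 1`
vanish at the generic point, and so the class is the inverse image of a class of `Z`, which is
invariant, since the inverse image is injective.
-/

set_option autoImplicit false

namespace Pool.Agent.Results.MP_677d84_ag.OnePlaceTimes

open NumberField Polynomial Pool.Agent.KS6_5.SP Pool.Agent.KS6_74.OP Pool.Agent.Y1.CT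
  Pool.Agent.Q64.L Pool.Agent.Q306.FG

/-- **Question Q1 for the function field of `A × Z` and the classes which extend to `A × Z` is
question Q1 for the function field of `Z` and the classes which extend to `Z`**, for the abelian
varieties `A` whose Frobenius numbers are supported at one place of a field `F` containing all the
real multiplications, and all `Z` whose Frobenius eigenvalues have smaller slopes or do not generate
the fields `E i` over `F`. -/
theorem result :
    (∀ (p : ℕ) [Fact p.Prime] (a : ℕ), 0 < a → ∀ (F : IntermediateField ℚ (AlgebraicClosure ℚ))
      [FiniteDimensional ℚ F] (I : Type) [Fintype I] (E : I → Type)
      [∀ i, Field (E i)] [∀ i, NumberField (E i)] [∀ i, IsCMField (E i)] (π : ∀ i, E i),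
      (∀ i, IsWeilOne p a (π i)) → (∀ i, ContainsReal F (E i)) →
      (∀ i, AtOnePlace p F (angle p a (π i))) → Incommensurable (fun i => angle p a (π i)) →
      ∀ f : I → ℤ[X], (∀ i, IsPolyOf (π i) (f i)) →
      GenericReduces (ForeignOrSmallRoots p a F π) (p ^ a) f) ∧
    (∀ (p : ℕ) [Fact p.Prime] (F : IntermediateField ℚ (AlgebraicClosure ℚ))
      [FiniteDimensional ℚ F], (∃! P : Ideal (𝓞 F), P.IsPrime ∧ (p : 𝓞 F) ∈ P) →
      ∀ (E : Type) [Field E] (α : E), AtOnePlace p F α) := by
  refine ⟨?_, ?_⟩
  · intro p _ a ha F _ I _ E _ _ _ π hW hR hP hI f hf
    have hq : 1 < p ^ a := Nat.one_lt_pow ha.ne' (Fact.out : p.Prime).one_lt
    have hG := good_onePlace (F := F) ⟨hW, hR, hP, hI⟩ hf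
    exact genericReduces hq hG
  · intro p _ F _ h E _ α
    exact atOnePlace_of_unique F h α

end Pool.Agent.Results.MP_677d84_ag.OnePlaceTimes
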