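import Mathlib
import Pool.Agent.KS6_5.OF.Crit
import Pool.Graph.R_pool_sql_team_seeded_2aa45f1a.Q306.FG.GPThms

/-!
# The Tate conjecture for function fields over finite fields, for the products of varieties with
abelian varieties separated by sign changes, with arbitrary Newton polygons

Let `q = p ^ a`, and let `P k` (`k` in an arbitrary set, possibly infinite) be monic irreducible
polynomials with integral coefficients with the following properties (`IsSeparatedFamily`), for
instance the minimal polynomials of the Frobenius endomorphisms of simple abelian varieties over
the field with `q` elements. **The Newton polygons are arbitrary**, but not all slopes are `1 / 2`.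

* the roots `z` of `P k` have the absolute value `√q`, and `(2 δ k) ^ 2 > 0` is at most the mean
  value of `(2 s - 1) ^ 2` over all slopes `s` of `P k`; so one can take `δ k = 1 / 2` for ordinary
  abelian varieties, and `(2 δ k) ^ 2 = f / g` for the dimension `g` and `p`-rank `f`;
* any two roots `z`, `z'` of the polynomials are **separated** (`Separated`): they are equal or have
  the product `q`, up to a root of unity, or **some** automorphism of the field of algebraic numbers
  fixes a power of one of them and maps a power of the other one to its complex conjugate;
* `z z' / q` is not a root of unity different from one, for all roots `z`, `z'` of the `P k` (this is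
  true after a finite extension of the base field).

**The second part of the theorem is a criterion**: the last two conditions are satisfied if over the
field `ℚ(z)` generated by any root `z` of `P k` the polynomial `P k` is the product of `X - z`,
`X - q / z` and an irreducible polynomial (or `P k` is quadratic), and for `k ≠ l` one of the
polynomials `P k`, `P l` is irreducible over the fields generated by the roots of the other one; in
other words, the automorphisms which fix `z` permute the other roots of `P k` transitively
(`TransitiveOnOthers`, without `q / z`), and the roots of `P l` (`TransitiveOver`), or conversely. So it
is sufficient that the Galois group of `P k` is the group of all permutations of the roots which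
respect the pairs `{z, q / z}` (for almost all abelian varieties in the usual families, Chavdarov
and Kowalski), or any subgroup with only three orbits on pairs of roots, and that the fields of `P k`
and `P l` are linearly disjoint, or only one of them over the other in the sense above: **there is no
condition on three or more of the fields**.

**The third part: `P k = X ^ 2 - b k X + q` is such a family if `p` does not divide `b k` and the
imaginary quadratic fields `ℚ(√(b k ^ 2 - 4 q))` are different from each other.**

Let `A` be an abelian variety over the field with `Q = q ^ s` elements which is isogenous to a
product of powers of abelian varieties coming from the field with `q` elements, with Frobenius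
eigenvalues among the roots of the `P k` (for `s = 1`: any product of powers of the simple abelian
varieties), and let `Z` be **any** smooth variety over the field with `Q` elements, proper or
not, such that

* the eigenvalues `ρ` of Frobenius on the `ℓ`-adic cohomology of `Z` satisfy the
  following condition (`NarrowUnrelated`), where `w ≥ 0` is **any** real number:

  `SlopesInInterval`: the slopes of `ρ` with respect to `q` lie in an interval of length `w` (which
  depends on `ρ`); and

  `NoShortRelation`: there is no relation `(z 1 ⋯ z n) ^ m * ρ ^ N = q ^ c`, `m, N > 0`, with `n > 0`
  roots `z i` of polynomials `P (k i)` no two of which have the product `q`, and with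
  `∑ (2 δ (k i)) ^ 2 ≤ w ^ 2`.

  If `w < 2 δ k` for all `k` there are no such products and `NoShortRelation` is no condition
  (fourth part of the theorem): **all `Z` are allowed such that the slopes of each eigenvalue and
  its conjugates lie in an interval of length less than `2 δ`, without any condition on fields**; for
  ordinary `A` this is an interval of length less than one, in general `2 δ` is the square root of
  the mean value of `(2 s - 1) ^ 2` over the slopes of the simple factors of `A`. For larger `w` only
  products of few of the numbers `z i` have to be compared with the eigenvalues of `Z`, although `A`
  can have any number of factors, of any dimension; `w` is at most the dimension of `Z`.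

**For all `i`, `j`, the Frobenius invariant classes in the cohomology group `H^i(F₀ (A × Z),
ℚ_ℓ(j))` of the generic point of `A × Z` which extend to `A × Z` are the inverse images of unique
Frobenius invariant classes in `H^i(F₀ Z, ℚ_ℓ(j))` which extend to `Z`; and all of the former come
from the higher Chow group `CH^j(Spec K(A × Z), 2 j - i)` (`K` an algebraic closure of the finite
field) if and only if all of the latter come from `CH^j(Spec K(Z), 2 j - i)`** (`GenericReduces`).
If `Z` is an open subset of a variety `Z'`, the condition is that the classes are unramified
outside of `A × (Z' - Z)`. So for these classes question Q1 for the function field of `A × Z` is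
question Q1 for the function field of `Z`, in every bidegree. **If all invariant classes of
bidegree `(i, j)` extend, then question Q1 for `A × Z` and `(i, j)` is equivalent to question Q1
for `Z` and `(i, j)`.** By the theory of weights this is so for `i = 2 j` if `Z` is projective:
the part of `H^(2 j)(F₀ X, ℚ_ℓ(j))` of weight zero is the image of `H^(2 j)(X, ℚ_ℓ(j))` for smooth
projective `X`, and question Q1 says that there are no nonzero invariant classes in it (`j > 0`).
No case of the conjectures of Tate, Beilinson and Parshin is assumed.

What is used of `A` are known theorems (`IsAbelian`): `H(A)` is generated by `H^1`, Frobenius is
diagonalizable on `H^1` (Weil), the theorem of Tate on divisors, and the nilpotence of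
homologically trivial correspondences (Kimura). The groups `H^i(X, ℚ_ℓ(j))` over an algebraic
closure, for `X = Z` and `X = A × Z`, are the groups of bidegree `(i, j)` of a theory which is
modelled by `RelData`, with the formal properties in `IsTheory`: degrees, products with classes on
`A`, push-forward to `Z`, the projection formula, the operation of the correspondences of `A` and
of the Frobenius endomorphism of `Z` (without the Tate twist, so that the Frobenius invariants are
the elements which are multiplied by `Q ^ j`). The cohomology of the generic points is modelled by
`GenericData` and `IsGeneric`: the restrictions and inverse images commute with Frobenius; the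
product of a class on `Z` with a class of positive codimension on `A` vanishes at the generic
point of `A × Z`, as it has a smaller support; the inverse image from the generic point of `Z` to
the one of `A × Z` is injective, and a class comes from a higher Chow group if its inverse image
does (specialization at a closed point of `A`); and the eigenvalues of Frobenius are algebraic
numbers (Deligne).

Relation to other results. In the library (`AllCMTypesTimes`, `NewtonStrata`,
`SmallSlopeDeviation` on this problem, `SeparatedSigns` and `SeparatedByClosures` on others) there are
many theorems on the relations between the eigenvalues of `A` itself, under conditions on the CM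
fields, their Galois closures and the CM types of the finitely many factors; there `Z` is unrelated
to the CM fields of `A`, by a condition on the representations of the Galois group (functions on the
embeddings which are invariant under the automorphisms fixing an eigenvalue vanish), and it is
needed for all `Z`, however small their slopes. Here the eigenvalues of `Z` may lie in the fields of
`A`; what is excluded are only short relations, which are really obstructions. In `OnePlaceTimes`
(helper74), `AllButFewTimes` (helper11) and `DifferentFieldsTimes` (helper5, this problem)
the abelian varieties have two slopes and real fields with one place above `p`, or a few bad factors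
which are small compared with the rest. There is no condition on the decomposition of `p` and on the
Newton polygon here; the method is different, and only pairs of roots have to be considered.

The proof. (1) For an embedding `l` of the field of algebraic numbers into the algebraic closure of
the field of `p`-adic numbers let `F_z (l)` be the logarithm of the absolute value of
`l (z ^ 2 / q)`. If the automorphism `g` fixes a power of `z` and conjugates a power of `z'` then the
translation by `g` preserves `F_z` and changes the sign of `F_z'`: **so `F_z` and `F_z'` are
orthogonal to each other** for the mean value over all `l` (over a finite quotient of the Galois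
group). The mean value of `F_z ^ 2` is the one over the slopes of `P k`, at least
`(2 δ k log q) ^ 2`, as the Galois group is transitive on the roots. (2) Suppose that the product of
`ρ` and of `n` roots `z i`, no two of them with product `q`, is a power of `q`, up to a root of unity.
Then the mean square of `∑ F_(z i)` is at least `∑ (2 δ (k i) log q) ^ 2`, as the products of two
terms have mean value zero, or are squares; and it is at most `(w log q) ^ 2`, as this sum is also,
up to a constant, twice the function of slopes of `ρ`, and odd for the complex conjugation. So the
relation is short, and excluded. (3) The
deduction of the theorem from the statement on relations is the one of the starting files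
(`AllCMTypesTimes`): the generalized eigenspace of Frobenius for the eigenvalue `Q ^ j` in
`H^i(A × Z, ℚ_ℓ(j))` is the sum of the products of finitely many products `D t` of divisors on `A`
with the cohomology of `Z`. An invariant class at the generic point which extends to `A × Z` is the
restriction of an element of this generalized eigenspace. All the terms but the one with `D t = 1`
vanish at the generic point, and so the class is the inverse image of a class of `Z`, which is
invariant, since the inverse image is injective.
-/

set_option autoImplicit false

namespace Pool.Agent.Results.MP_677d84_ag.SeparatedByFlipsTimes

open Polynomial Pool.Agent.KS6_5.OC Pool.Agent.KS6_5.OG Pool.Agent.KS6_5.OF Pool.Agent.Y1.CT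
  Pool.Agent.Q64.L Pool.Agent.Q306.FG

/-- **Question Q1 for the function field of `A × Z` and the classes which extend to `A × Z` is
question Q1 for the function field of `Z` and the classes which extend to `Z`**, for the abelian varieties `A`, with
arbitrary Newton polygons, such that any two eigenvalues of Frobenius are separated by an
automorphism which fixes one of them and conjugates the other one, and all `Z`
whose Frobenius eigenvalues have slopes in an interval of length `w` and no relations with products
of few eigenvalues of Frobenius of `A` (none at all are to be considered for `w < 2 δ k`, `(2 δ k) ^ 2`
the mean value of `(2 s - 1) ^ 2` over the slopes `s`). -/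
theorem result :
    (∀ (p : ℕ) [Fact p.Prime] (a : ℕ), 0 < a → ∀ (κ : Type) (δ : κ → ℝ) (P : κ → ℤ[X]),
      IsSeparatedFamily p a δ P → ∀ w : ℝ, 0 ≤ w →
      GenericReduces (NarrowUnrelated p a w δ P) (p ^ a) P) ∧
    (∀ (p : ℕ) [Fact p.Prime] (a : ℕ), 0 < a → ∀ (κ : Type) (δ : κ → ℝ) (P : κ → ℤ[X]),
      (∀ k, 0 < δ k) → (∀ k, (P k).Monic) → (∀ k, Irreducible (P k)) →
      (∀ (k : κ) (z : AlgebraicClosure ℚ), aeval z (P k) = 0 →
        ∀ φ : AlgebraicClosure ℚ →+* ℂ, ‖φ z‖ ^ 2 = (p ^ a : ℕ)) →
      (∀ k, ((P k).natDegree : ℝ) * (2 * δ k) ^ 2 ≤ (((P k).aroots (PadicAlgCl p)).map fun y =>
        (2 * Real.log ‖y‖ / Real.log (p ^ a : ℕ) + 1) ^ 2).sum) →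
      (∀ k, TransitiveOnOthers (p ^ a) (P k)) →
      (∀ k l, k ≠ l → TransitiveOver (P k) (P l) ∨ TransitiveOver (P l) (P k)) →
      IsSeparatedFamily p a δ P) ∧
    (∀ (p : ℕ) [Fact p.Prime] (a : ℕ), 0 < a → ∀ (κ : Type) (b : κ → ℤ),
      (∀ k, ¬ (p : ℤ) ∣ b k) → (∀ k, b k ^ 2 < 4 * (p ^ a : ℕ)) →
      (∀ k l, b k = b l ∨ ¬ IsSquare ((b k ^ 2 - 4 * (p ^ a : ℕ)) * (b l ^ 2 - 4 * (p ^ a : ℕ)))) →
      IsSeparatedFamily p a (fun _ : κ => 1 / 2)
        (fun k => X ^ 2 - C (b k) * X + C (((p ^ a : ℕ) : ℤ)))) ∧
    (∀ (q : ℕ) (κ : Type) (δ : κ → ℝ) (P : κ → ℤ[X]) (w : ℝ), 0 ≤ w → (∀ k, w < 2 * δ k) →
      ∀ ρ : AlgebraicClosure ℚ, NoShortRelation q w δ P ρ) := by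
  refine ⟨?_, ?_, ?_, ?_⟩
  · intro p _ a ha κ δ P H w hw
    have hq : 1 < p ^ a := Nat.one_lt_pow ha.ne' (Fact.out : p.Prime).one_lt
    exact genericReduces hq (good_separated ha H hw)
  · intro p _ a ha κ δ P h1 h2 h3 h4 h5 h6 h7
    exact family_of_transitive ha h1 h2 h3 h4 h5 h6 h7
  · intro p _ a ha κ b hb hd h
    exact ell_separated_family ha b hb hd h
  · intro q κ δ P w hw h ρ
    exact noShortRelation_of_lt hw h ρ

end Pool.Agent.Results.MP_677d84_ag.SeparatedByFlipsTimes
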